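import Pool.Agent.N139.AS.Stm2

/-!
# Project AS, task CLPT: compactness
-/

set_option autoImplicit false

namespace Pool.Agent.N591.AS

open Filter
open Pool.Agent.N139.AS

section gen

variable {N : Type} [Group N] {S : WD N}

theorem W_pow (hS : S.Ok) (k : ℕ) (a b : ℤ) (n : N) :
    (S.σ ^ k) n ∈ S.W (a + k) (b + k) ↔ n ∈ S.W a b := by
  induction k with
  | zero => simp
  | succ k ih =>
    rw [pow_succ', MulAut.mul_apply]
    push_cast
    rw [← add_assoc, ← add_assoc, hS.shift, ih]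

theorem act_pow (hS : S.Ok) {R : ℕ} {H : Type} [Group H] {α : N → H} {t : H}
    (hA : Act S R α t) (k : ℕ) {a b : ℤ} (ha : -(R : ℤ) ≤ a) (hb : b + k ≤ R) {n : N}
    (hn : n ∈ S.W a b) : t ^ k * α n = α ((S.σ ^ k) n) * t ^ k := by
  induction k with
  | zero => simp
  | succ k ih =>
    push_cast at hb
    have h1 := ih (by linarith)
    have h2 : (S.σ ^ k) n ∈ S.W (-(R : ℤ)) (R - 1) := by
      refine hS.mono (a + k) (b + k) _ _ (by linarith [Int.natCast_nonneg k]) (by linarith) ?_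
      exact (W_pow hS k a b n).2 hn
    rw [pow_succ', mul_assoc, h1, ← mul_assoc, hA.rel _ h2, pow_succ', MulAut.mul_apply,
      mul_assoc]

theorem act_zpow (hS : S.Ok) {R : ℕ} {H : Type} [Group H] {α : N → H} {t : H}
    (hA : Act S R α t) (k : ℤ) {r : ℕ} (hr : (r : ℤ) + |k| ≤ R) {n : N}
    (hn : n ∈ S.W (-(r : ℤ)) r) : t ^ k * α n = α ((S.σ ^ k) n) * t ^ k := by
  rcases Int.eq_nat_or_neg k with ⟨m, rfl | rfl⟩
  · rw [Nat.abs_cast] at hr
    rw [zpow_natCast, zpow_natCast]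
    exact act_pow hS hA m (by linarith [Int.natCast_nonneg m]) hr hn
  · rw [abs_neg, Nat.abs_cast] at hr
    have h1 : (S.σ ^ (-(m : ℤ))) n ∈ S.W (-(r : ℤ) - m) ((r : ℤ) - m) := by
      rw [← W_pow hS m, sub_add_cancel, sub_add_cancel, ← MulAut.mul_apply, ← zpow_natCast,
        ← zpow_add, add_neg_cancel, zpow_zero, MulAut.one_apply]
      exact hn
    have h2 := act_pow hS hA m (by linarith) (by linarith [Int.natCast_nonneg m]) h1
    rw [← MulAut.mul_apply, ← zpow_natCast S.σ, ← zpow_add, add_neg_cancel, zpow_zero,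
      MulAut.one_apply] at h2
    have h3 : t ^ (-(m : ℤ)) = (t ^ m)⁻¹ := by rw [zpow_neg, zpow_natCast]
    rw [h3]
    calc (t ^ m)⁻¹ * α n = (t ^ m)⁻¹ * (α n * t ^ m) * (t ^ m)⁻¹ := by group
      _ = (t ^ m)⁻¹ * (t ^ m * α ((S.σ ^ (-(m : ℤ))) n)) * (t ^ m)⁻¹ := by rw [h2]
      _ = _ := by group

/-- the permutation attached to `g` -/
def Ph {H : Type} [Group H] (α : N → H) (t : H) (g : GG S) : H :=
  α g.left * t ^ (Multiplicative.toAdd g.right)

theorem Ph_mul (hS : S.Ok) {R : ℕ} {H : Type} [Group H] {α : N → H} {t : H}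
    (hA : Act S R α t) (g h : GG S) {r₁ r₂ : ℕ} (h1 : g.left ∈ S.W (-(r₁ : ℤ)) r₁)
    (h2 : h.left ∈ S.W (-(r₂ : ℤ)) r₂) (hr1 : r₁ ≤ R)
    (hr2 : (r₂ : ℤ) + |Multiplicative.toAdd g.right| ≤ R) :
    Ph α t (g * h) = Ph α t g * Ph α t h := by
  unfold Ph
  rw [SemidirectProduct.mul_left, SemidirectProduct.mul_right, toAdd_mul]
  set k := Multiplicative.toAdd g.right with hk
  have e1 : ((zpowersHom (MulAut N)) S.σ) g.right = S.σ ^ k := by
    rw [zpowersHom_apply]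
  rw [e1]
  have h3 : g.left ∈ S.W (-(R : ℤ)) R := by
    refine hS.mono _ _ _ _ ?_ ?_ h1
    · have : (r₁ : ℤ) ≤ R := by exact_mod_cast hr1
      linarith
    · exact_mod_cast hr1
  have h4 : (S.σ ^ k) h.left ∈ S.W (-(R : ℤ)) R := by
    rcases Int.eq_nat_or_neg k with ⟨m, hm | hm⟩
    · rw [hm, Nat.abs_cast] at hr2
      rw [hm, zpow_natCast]
      refine hS.mono _ _ _ _ ?_ ?_ ((W_pow hS m _ _ _).2 h2)
      · linarith [Int.natCast_nonneg m, Int.natCast_nonneg r₂]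
      · linarith
    · rw [hm, abs_neg, Nat.abs_cast] at hr2
      rw [hm]
      have h5 : (S.σ ^ (-(m : ℤ))) h.left ∈ S.W (-(r₂ : ℤ) - m) ((r₂ : ℤ) - m) := by
        rw [← W_pow hS m, sub_add_cancel, sub_add_cancel, ← MulAut.mul_apply, ← zpow_natCast,
          ← zpow_add, add_neg_cancel, zpow_zero, MulAut.one_apply]
        exact h2
      refine hS.mono _ _ _ _ ?_ ?_ h5
      · linarith
      · linarith [Int.natCast_nonneg m]
  rw [hA.mul _ h3 _ h4, zpow_add]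
  have h6 := act_zpow hS hA k hr2 h2
  calc α g.left * α ((S.σ ^ k) h.left) * (t ^ k * t ^ Multiplicative.toAdd h.right)
      = α g.left * (α ((S.σ ^ k) h.left) * t ^ k) * t ^ Multiplicative.toAdd h.right := by group
    _ = α g.left * (t ^ k * α h.left) * t ^ Multiplicative.toAdd h.right := by rw [h6]
    _ = _ := by group

theorem Ph_one {R : ℕ} {H : Type} [Group H] {α : N → H} {t : H}
    (hA : Act S R α t) : Ph α t (1 : GG S) = 1 := by
  unfold Ph
  rw [SemidirectProduct.one_left, SemidirectProduct.one_right, toAdd_one, zpow_zero, mul_one]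
  have h := hA.mul 1 (one_mem _) 1 (one_mem _)
  rw [mul_one] at h
  exact left_eq_mul.mp h

theorem Ph_inn {H : Type} [Group H] (α : N → H) (t : H) (n : N) : Ph α t (inn S n) = α n := by
  unfold Ph
  rw [SemidirectProduct.left_inl, SemidirectProduct.right_inl, toAdd_one, zpow_zero, mul_one]

theorem tt_pow (j : ℕ) : (tt S) ^ j = SemidirectProduct.inr (Multiplicative.ofAdd (j : ℤ)) := by
  unfold tt
  rw [← map_pow, ← ofAdd_nsmul]
  simp

theorem Ph_tt {R : ℕ} {H : Type} [Group H] {α : N → H} {t : H}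
    (hA : Act S R α t) (j : ℕ) : Ph α t ((tt S) ^ j) = t ^ j := by
  have h1 := Ph_one hA
  unfold Ph at h1 ⊢
  rw [SemidirectProduct.one_left, SemidirectProduct.one_right, toAdd_one, zpow_zero,
    mul_one] at h1
  rw [tt_pow, SemidirectProduct.left_inr, SemidirectProduct.right_inr, h1, one_mul, toAdd_ofAdd,
    zpow_natCast]

theorem tt_pow_mul (j : ℕ) (n : N) : (tt S) ^ j * inn S n = inn S ((S.σ ^ j) n) * (tt S) ^ j := by
  induction j with
  | zero => simp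
  | succ j ih =>
    rw [pow_succ', mul_assoc, ih, ← mul_assoc, tt_mul, pow_succ', MulAut.mul_apply, mul_assoc]

end gen

/-- finite-valued functions are constant along an ultrafilter -/
theorem exists_const {β : Type} (U : Ultrafilter ℕ) (f : ℕ → β) (s : Set β) (hs : s.Finite)
    (h : ∀ i, f i ∈ s) : ∃ b ∈ s, ∀ᶠ i in (U : Filter ℕ), f i = b := by
  have h1 : (⋃ b ∈ s, {i | f i = b}) ∈ U := by
    have : (⋃ b ∈ s, {i | f i = b}) = Set.univ := by
      ext i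
      simp only [Set.mem_iUnion, Set.mem_univ, iff_true]
      exact ⟨f i, h i, rfl⟩
    rw [this]
    exact Filter.univ_mem
  obtain ⟨b, hb, hb2⟩ := (Ultrafilter.finite_biUnion_mem_iff hs).1 h1
  exact ⟨b, hb, hb2⟩

theorem exists_const' {β : Type} (U : Ultrafilter ℕ) (P : β → ℕ → Prop) (s : Set β)
    (hs : s.Finite) (h : ∀ᶠ i in (U : Filter ℕ), ∃ b ∈ s, P b i) :
    ∃ b ∈ s, ∀ᶠ i in (U : Filter ℕ), P b i := by
  have h1 : (⋃ b ∈ s, {i | P b i}) ∈ U := by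
    filter_upwards [h] with i hi
    obtain ⟨b, hb, hb2⟩ := hi
    exact Set.mem_biUnion hb hb2
  obtain ⟨b, hb, hb2⟩ := (Ultrafilter.finite_biUnion_mem_iff hs).1 h1
  exact ⟨b, hb, hb2⟩

theorem fi_fi {q q' : ℕ} (h : q' ∣ q) (i : ℤ) : fi q' (fi q i) = fi q' i := by
  unfold fi
  congr 1
  obtain ⟨c, rfl⟩ := h
  push_cast
  rw [Int.sub_mul_emod_self_left]
  exact Int.emod_emod_of_dvd i (Dvd.intro _ rfl)

theorem fL_fL {q q' : ℕ} (h : q' ∣ q) (l : Lam) : fL q' (fL q l) = fL q' l := by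
  show Finsupp.mapDomain (fi q') (Finsupp.mapDomain (fi q) l) = Finsupp.mapDomain (fi q') l
  rw [← Finsupp.mapDomain_comp]
  congr 1
  funext i
  exact fi_fi h i

theorem fA_fA (p : ℕ) {q q' : ℕ} (h : q' ∣ q) (a : Lam →₀ ZMod p) :
    fA p q' (fA p q a) = fA p q' a := by
  show Finsupp.mapDomain (fL q') (Finsupp.mapDomain (fL q) a) = Finsupp.mapDomain (fL q') a
  rw [← Finsupp.mapDomain_comp]
  congr 1
  funext i
  exact fL_fL h i

theorem fN_fN (p : ℕ) {q q' : ℕ} (h : q' ∣ q) (n : NN p) : fN p q' (fN p q n) = fN p q' n := by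
  ext1
  · exact fA_fA p h n.a
  · exact fL_fL h n.l

theorem fN_one (p : ℕ) {q q' : ℕ} (h : q' ∣ q) (n : NN p) (hn : fN p q n = 1) :
    fN p q' n = 1 := by
  rw [← fN_fN p h, hn, map_one]

theorem t_CLPT (h : S_CLALG) (hO : S_OK) : S_CLPT := by
  intro p _ hp K m
  have hS : (SS p).Ok := hO p
  have hW : ∀ a b, (SS p).W a b = WN p a b := fun _ _ => rfl
  have hq : ∀ j : ℕ, ∃ q : ℕ, 0 < q ∧ (0 < j →
    ∀ (L : Subgroup (GG (SS p))) (g : GG (SS p)) (n : NN p),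
      g = (inn (SS p) n)⁻¹ * tt (SS p) ^ j → g ∈ L →
      (∀ s : Fin (m + 1) → NN p, (∀ k, s k ∈ SA p) → ∃ k k', k ≠ k' ∧
        g * inn (SS p) (s k * (s k')⁻¹) * g⁻¹ * (inn (SS p) (s k * (s k')⁻¹))⁻¹ ∈ L) →
      (∀ s : Fin (m + 1) → NN p, (∀ k, s k ∈ SL p) → ∃ k k', k ≠ k' ∧ ∃ a ∈ SA p,
        inn (SS p) a *
          (g * inn (SS p) (s k * (s k')⁻¹) * g⁻¹ * (inn (SS p) (s k * (s k')⁻¹))⁻¹) ∈ L) →
      ∀ n' : NN p, fN p q n' = 1 → inn (SS p) n' ∈ L) := by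
    intro j
    rcases Nat.eq_zero_or_pos j with rfl | hj
    · exact ⟨1, one_pos, fun h => absurd h (lt_irrefl _)⟩
    · obtain ⟨q, hq0, hq⟩ := h p hp j m hj
      exact ⟨q, hq0, fun _ => hq⟩
  choose qf hqf0 hqf using hq
  refine ⟨∏ j ∈ Finset.range (K + 1), qf j, Finset.prod_pos fun j _ => hqf0 j, fun w => ?_⟩
  by_contra hcon
  push Not at hcon
  choose R hR X α t hAct x j n hj0 hjK hn hfix hCA hCL n' hn' hfn hne using hcon
  set U : Ultrafilter ℕ := Filter.hyperfilter ℕ with hU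
  have hUtop : (U : Filter ℕ) ≤ atTop := Nat.hyperfilter_le_atTop
  have hlarge : ∀ c : ℤ, ∀ᶠ i in (U : Filter ℕ), c ≤ (R i : ℤ) := by
    intro c
    refine hUtop ?_
    filter_upwards [eventually_ge_atTop c.toNat] with i hi
    have h1 : c ≤ (c.toNat : ℤ) := Int.self_le_toNat c
    have h2 : (c.toNat : ℤ) ≤ i := by exact_mod_cast hi
    have h3 : (i : ℤ) ≤ R i := by exact_mod_cast hR i
    linarith
  obtain ⟨j₀, hj₀, hjU⟩ := exists_const U j (Set.Ioc 0 K) (Set.finite_Ioc 0 K)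
    (fun i => ⟨hj0 i, hjK i⟩)
  have hWfin : ∀ a b : ℤ, (WN p a b : Set (NN p)).Finite := by
    intro a b
    have : Finite (WN p a b : Set (NN p)) := hS.fin a b
    exact Set.toFinite _
  obtain ⟨n₀, hn₀, hnU⟩ := exists_const U n (WN p (-K) K) (hWfin _ _) hn
  obtain ⟨n₁, hn₁, hn1U⟩ := exists_const U n' (WN p (-w) w) (hWfin _ _) hn'
  -- the subgroup
  have hPmul : ∀ g g' : GG (SS p), ∀ᶠ i in (U : Filter ℕ),
      Ph (α i) (t i) (g * g') = Ph (α i) (t i) g * Ph (α i) (t i) g' := by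
    intro g g'
    obtain ⟨r₁, hr₁⟩ := hS.exh g.left
    obtain ⟨r₂, hr₂⟩ := hS.exh g'.left
    filter_upwards [hlarge r₁, hlarge ((r₂ : ℤ) + |Multiplicative.toAdd g.right|)] with i h1 h2
    refine Ph_mul hS (hAct i) g g' hr₁ hr₂ ?_ ?_
    · have : (r₁ : ℤ) ≤ (R i : ℤ) := h1
      have h3 : r₁ ≤ R i := by exact_mod_cast this
      omega
    · push_cast
      linarith [Int.natCast_nonneg K]
  have hPone : ∀ i, Ph (α i) (t i) (1 : GG (SS p)) = 1 := fun i => Ph_one (hAct i)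
  let L : Subgroup (GG (SS p)) :=
    { carrier := {g | ∀ᶠ i in (U : Filter ℕ), Ph (α i) (t i) g (x i) = x i}
      mul_mem' := by
        intro a b ha hb
        filter_upwards [ha, hb, hPmul a b] with i h1 h2 h3
        rw [h3, Equiv.Perm.mul_apply, h2, h1]
      one_mem' := Filter.Eventually.of_forall fun i => by rw [hPone i, Equiv.Perm.one_apply]
      inv_mem' := by
        intro a ha
        filter_upwards [ha, hPmul a⁻¹ a] with i h1 h2
        rw [inv_mul_cancel, hPone i] at h2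
        have h4 := congrArg (fun e => e (x i)) h2
        simp only [Equiv.Perm.mul_apply, Equiv.Perm.one_apply, h1] at h4
        exact h4.symm }
  have hL : ∀ g, g ∈ L ↔ ∀ᶠ i in (U : Filter ℕ), Ph (α i) (t i) g (x i) = x i := fun g => Iff.rfl
  have hLinn : ∀ b : NN p, inn (SS p) b ∈ L ↔ ∀ᶠ i in (U : Filter ℕ), α i b (x i) = x i := by
    intro b
    rw [hL]
    simp only [Ph_inn]
  set g : GG (SS p) := (inn (SS p) n₀)⁻¹ * tt (SS p) ^ j₀ with hg
  have hgL : g ∈ L := by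
    rw [hL]
    filter_upwards [hjU, hnU, hPmul ((inn (SS p) n₀)⁻¹) (tt (SS p) ^ j₀),
      hPmul ((inn (SS p) n₀)⁻¹) (inn (SS p) n₀)] with i h1 h2 h3 h4
    rw [hg, h3, Ph_tt (hAct i), Equiv.Perm.mul_apply]
    have h5 := hfix i
    rw [h1, h2] at h5
    rw [h5]
    rw [inv_mul_cancel, hPone i, Ph_inn] at h4
    have h6 := congrArg (fun e => e (x i)) h4
    simp only [Equiv.Perm.mul_apply, Equiv.Perm.one_apply] at h6
    exact h6.symm
  have hcmt : ∀ d : NN p, g * inn (SS p) d * g⁻¹ * (inn (SS p) d)⁻¹ =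
      inn (SS p) (cmt p n₀ j₀ d) := by
    intro d
    have h1 := tt_pow_mul (S := SS p) j₀ d
    have h2 : tt (SS p) ^ j₀ * inn (SS p) d * (tt (SS p) ^ j₀)⁻¹ =
        inn (SS p) (((shN p) ^ j₀) d) := by
      rw [h1, mul_inv_cancel_right]
      rfl
    unfold cmt
    rw [map_mul, map_mul, map_mul, map_inv, map_inv, ← h2, hg]
    group
  have hq₀ := hqf j₀ hj₀.1 L g n₀ hg hgL ?_ ?_ n₁ ?_
  · rw [hLinn] at hq₀
    obtain ⟨i, hi1, hi2⟩ := (hq₀.and hn1U).exists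
    apply hne i
    rw [hi2]
    exact hi1
  · intro s hs
    have hex : ∀ k, ∃ r : ℕ, s k ∈ WN p (-(r : ℤ)) r := fun k => hS.exh (s k)
    choose r hr using hex
    have hbig : ∀ᶠ i in (U : Filter ℕ), ∃ kk ∈ (Set.univ : Set (Fin (m + 1) × Fin (m + 1))),
        kk.1 ≠ kk.2 ∧ α i (cmt p n₀ j₀ (s kk.1 * (s kk.2)⁻¹)) (x i) = x i := by
      filter_upwards [hjU, hnU, hlarge (∑ k, (r k : ℤ))] with i h1 h2 h3
      have h4 : ∀ k, s k ∈ SA p ∧ s k ∈ WN p (-(R i : ℤ)) (R i) := by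
        intro k
        refine ⟨hs k, ?_⟩
        have h5 : (r k : ℤ) ≤ ∑ k, (r k : ℤ) :=
          Finset.single_le_sum (f := fun k => (r k : ℤ)) (fun k _ => Int.natCast_nonneg _)
            (Finset.mem_univ k)
        exact hS.mono _ _ _ _ (by linarith) (by linarith) (hr k)
      obtain ⟨k, k', hkk, hfx⟩ := hCA i s h4
      rw [h1, h2] at hfx
      exact ⟨(k, k'), Set.mem_univ _, hkk, hfx⟩
    obtain ⟨kk, -, hkk⟩ := exists_const' U _ _ Set.finite_univ hbig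
    refine ⟨kk.1, kk.2, ?_, ?_⟩
    · obtain ⟨i, hi⟩ := hkk.exists
      exact hi.1
    · rw [hcmt, hLinn]
      exact hkk.mono fun i hi => hi.2
  · intro s hs
    have hex : ∀ k, ∃ r : ℕ, s k ∈ WN p (-(r : ℤ)) r := fun k => hS.exh (s k)
    choose r hr using hex
    set r₀ : ℕ := ∑ k, r k with hr₀
    have hsr : ∀ k, s k ∈ SL p ∧ s k ∈ WN p (-(r₀ : ℤ)) r₀ := by
      intro k
      refine ⟨hs k, ?_⟩
      have h5 : r k ≤ r₀ := Finset.single_le_sum (f := r) (fun k _ => Nat.zero_le _)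
        (Finset.mem_univ k)
      have h6 : (r k : ℤ) ≤ r₀ := by exact_mod_cast h5
      exact hS.mono _ _ _ _ (by linarith) h6 (hr k)
    have hfin : (Set.univ ×ˢ (WN p (-(r₀ + 2 * K : ℕ)) (r₀ + 2 * K : ℕ) : Set (NN p)) :
        Set ((Fin (m + 1) × Fin (m + 1)) × NN p)).Finite := Set.finite_univ.prod (hWfin _ _)
    have hbig : ∀ᶠ i in (U : Filter ℕ), ∃ kk ∈ (Set.univ ×ˢ
        (WN p (-(r₀ + 2 * K : ℕ)) (r₀ + 2 * K : ℕ) : Set (NN p)) :
        Set ((Fin (m + 1) × Fin (m + 1)) × NN p)),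
        kk.1.1 ≠ kk.1.2 ∧ kk.2 ∈ SA p ∧
          α i (kk.2 * cmt p n₀ j₀ (s kk.1.1 * (s kk.1.2)⁻¹)) (x i) = x i := by
      filter_upwards [hjU, hnU, hlarge r₀] with i h1 h2 h3
      have h4 : r₀ ≤ R i := by exact_mod_cast h3
      obtain ⟨k, k', hkk, a, ha, haW, hfx⟩ := hCL i r₀ h4 s hsr
      rw [h1, h2] at hfx
      exact ⟨((k, k'), a), ⟨Set.mem_univ _, haW⟩, hkk, ha, hfx⟩
    obtain ⟨kk, -, hkk⟩ := exists_const' U _ _ hfin hbig
    obtain ⟨i, hi⟩ := hkk.exists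
    refine ⟨kk.1.1, kk.1.2, hi.1, kk.2, hi.2.1, ?_⟩
    rw [hcmt, ← map_mul, hLinn]
    exact hkk.mono fun i hi => hi.2.2
  · obtain ⟨i, hi⟩ := hn1U.exists
    rw [← hi]
    refine fN_one p ?_ _ (hfn i)
    exact Finset.dvd_prod_of_mem qf (Finset.mem_range.2 (by have := hj₀.2; omega))

end Pool.Agent.N591.AS
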